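import Pool.Agent.AM.Odd.Ratio
import Pool.Agent.AM.Dim1

/-! Lower bound for the dimension in the odd case. -/

set_option autoImplicit false
open Complex Filter Topology
open scoped ENNReal
namespace Pool.Agent.AM

/-- the points where two of the functions do not vanish -/
def OddLower_V (d : ℕ) (s : ℝ) : Set ℂ := {z | U d s 0 z ≠ 0 ∧ U d s 1 z ≠ 0}

lemma OddLower_V_open (d : ℕ) (hd : 0 < d) (s : ℝ) (hs : 0 < s) : IsOpen (OddLower_V d s) := by
  have hc : ∀ a : ℤ, Continuous (U d s a) := fun a =>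
    continuous_iff_continuousAt.2 fun x => (hasDerivAt_U d hd s hs a x).continuousAt
  exact (isOpen_ne_fun (hc 0) continuous_const).inter (isOpen_ne_fun (hc 1) continuous_const)

lemma OddLower_V_nonempty (d : ℕ) (hd : 0 < d) (s : ℝ) (hs : 0 < s) :
    (OddLower_V d s).Nonempty := by
  have h1 : ({x : ℂ | U d s 0 x = 0} ∪ {x : ℂ | U d s 1 x = 0}).Countable :=
    (U_zeros_countable d hd s hs 0).union (U_zeros_countable d hd s hs 1)
  have h2 : ({x : ℂ | U d s 0 x = 0} ∪ {x : ℂ | U d s 1 x = 0}) ≠ Set.univ := by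
    intro h
    rw [h] at h1
    exact not_countable_complex h1
  obtain ⟨x, hx⟩ := (Set.ne_univ_iff_exists_notMem _).1 h2
  refine ⟨x, fun h => hx (Or.inl h), fun h => hx (Or.inr h)⟩

open Classical in
/-- the point with given free coordinates -/
lemma OddLower_point (d m : ℕ) (hd : 3 ≤ d) (hm : 2 * d - 3 ≤ m + 1) (s : Fin (m + 1) → ℝ)
    (hs : ∀ l, 0 < s l) (hg : ∀ l, Good d (s l)) (w : Fin (m + 1) → ℂ)
    (hw : ∀ l : Fin (m + 1), 2 * d - 4 ≤ (l : ℕ) → (l : ℕ) < m → w l ∈ OddLower_V d (s l)) :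
    ∃ x : Fin (m + 1) → ℂ,
      (∀ c : Fin d, 2 ≤ (c : ℕ) → 2 ≤ (Finset.univ.filter (fun l : Fin (m + 1) =>
        U d (s l) (c : ℕ) (x l) = 0)).card) ∧
      ∏ l, U d (s l) 0 (x l) = ∏ l, U d (s l) 1 (x l) ∧
      ∀ l : Fin (m + 1), 2 * d - 4 ≤ (l : ℕ) → (l : ℕ) < m → x l = w l := by
  have hd0 : 0 < d := by omega
  -- the zeros
  let zr : Fin (m + 1) → ℂ := fun l =>
    1 / (2 * d) - I * s l * ((((l : ℕ) / 2 + 2 : ℕ) : ℤ) - d / 2)
  have hzr0 : ∀ l, U d (s l) (((l : ℕ) / 2 + 2 : ℕ) : ℤ) (zr l) = 0 := fun l =>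
    U_zero_exists d hd0 (s l) (hs l) (((l : ℕ) / 2 + 2 : ℕ) : ℤ)
  let y : Fin (m + 1) → ℂ := fun l => if (l : ℕ) < 2 * d - 4 then zr l else w l
  let i0 : Fin d := ⟨0, hd0⟩
  let i1 : Fin d := ⟨1, by omega⟩
  have e0 : (((i0 : Fin d) : ℕ) : ℤ) = 0 := by simp [i0]
  have e1 : (((i1 : Fin d) : ℕ) : ℤ) = 1 := by simp [i1]
  have hy : ∀ l : Fin (m + 1), (l : ℕ) < m →
      U d (s l) 0 (y l) ≠ 0 ∧ U d (s l) 1 (y l) ≠ 0 := by
    intro l hl
    by_cases h : (l : ℕ) < 2 * d - 4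
    · have hy' : y l = zr l := if_pos h
      rw [hy']
      have hc : (l : ℕ) / 2 + 2 < d := by omega
      constructor
      · intro h0
        have := (hg l).distinct i0 ⟨(l : ℕ) / 2 + 2, hc⟩ (zr l) (by rw [e0]; exact h0) (hzr0 l)
        have h2 := congrArg Fin.val this
        simp [i0] at h2
      · intro h0
        have := (hg l).distinct i1 ⟨(l : ℕ) / 2 + 2, hc⟩ (zr l) (by rw [e1]; exact h0) (hzr0 l)
        have h2 := congrArg Fin.val this
        simp [i1] at h2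
    · have hy' : y l = w l := if_neg h
      rw [hy']
      exact hw l (by omega) hl
  -- the last coordinate
  let r : ℂ := ∏ l : Fin m, U d (s l.castSucc) 1 (y l.castSucc) / U d (s l.castSucc) 0 (y l.castSucc)
  obtain ⟨z, -, hz⟩ := ratio_surj d (by omega) (s (Fin.last m)) (hs _) (hg _) i0 i1
    (by intro h; have h2 := congrArg Fin.val h; simp [i0, i1] at h2) r
  rw [e0, e1] at hz
  let x : Fin (m + 1) → ℂ := fun l => if (l : ℕ) < m then y l else z
  have hx : ∀ l : Fin (m + 1), (l : ℕ) < m → x l = y l := fun l hl => if_pos hl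
  have hxl : x (Fin.last m) = z := if_neg (by simp)
  refine ⟨x, ?_, ?_, ?_⟩
  · intro c hc
    have hcd := c.2
    have h1 : 2 * ((c : ℕ) - 2) < m := by omega
    have h2 : 2 * ((c : ℕ) - 2) + 1 < m := by omega
    have hne : (⟨2 * ((c : ℕ) - 2), by omega⟩ : Fin (m + 1)) ≠ ⟨2 * ((c : ℕ) - 2) + 1, by omega⟩ := by
      intro h
      have h3 := congrArg Fin.val h
      simp at h3
    rw [← Finset.card_pair hne]
    apply Finset.card_le_card
    intro l hl
    rw [Finset.mem_insert, Finset.mem_singleton] at hl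
    rw [Finset.mem_filter]
    refine ⟨Finset.mem_univ _, ?_⟩
    rcases hl with rfl | rfl
    · rw [hx _ h1]
      have hy' : y ⟨2 * ((c : ℕ) - 2), by omega⟩ = zr ⟨2 * ((c : ℕ) - 2), by omega⟩ :=
        if_pos (by simp only; omega)
      rw [hy']
      have h3 := hzr0 ⟨2 * ((c : ℕ) - 2), by omega⟩
      have e : 2 * ((c : ℕ) - 2) / 2 + 2 = c := by omega
      simp only [e] at h3
      exact h3
    · rw [hx _ h2]
      have hy' : y ⟨2 * ((c : ℕ) - 2) + 1, by omega⟩ = zr ⟨2 * ((c : ℕ) - 2) + 1, by omega⟩ :=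
        if_pos (by simp only; omega)
      rw [hy']
      have h3 := hzr0 ⟨2 * ((c : ℕ) - 2) + 1, by omega⟩
      have e : (2 * ((c : ℕ) - 2) + 1) / 2 + 2 = c := by omega
      simp only [e] at h3
      exact h3
  · rw [Fin.prod_univ_castSucc, Fin.prod_univ_castSucc, hxl, hz]
    have h1 : ∀ l : Fin m, x l.castSucc = y l.castSucc := fun l => hx _ l.2
    simp only [h1]
    rw [← mul_assoc]
    congr 1
    rw [← Finset.prod_mul_distrib]
    refine Finset.prod_congr rfl fun l _ => ?_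
    rw [mul_div_cancel₀]
    exact (hy l.castSucc l.2).1
  · intro l h1 h2
    rw [hx l h2]
    exact if_neg (by omega)

open Classical in
theorem odd_lower (d m : ℕ) (hd : 3 ≤ d) (hm : 2 * d - 3 ≤ m + 1) (s : Fin (m + 1) → ℝ)
    (hs : ∀ l, 0 < s l) (hg : ∀ l, Good d (s l)) (S : Set (Fin (m + 3) → ℂ)) (y1 y2 : ℂ)
    (hS : ∀ x : Fin (m + 1) → ℂ,
      (∀ c : Fin d, 2 ≤ (c : ℕ) → 2 ≤ (Finset.univ.filter (fun l : Fin (m + 1) =>
        U d (s l) (c : ℕ) (x l) = 0)).card) →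
      ∏ l, U d (s l) 0 (x l) = ∏ l, U d (s l) 1 (x l) →
      (Fin.cons y1 (Fin.cons y2 x : Fin (m + 2) → ℂ) : Fin (m + 3) → ℂ) ∈ S) :
    S.Nonempty ∧ ((2 * (m + 3 - (2 * d - 1)) : ℕ) : ℝ≥0∞) ≤ dimH S := by
  have hd0 : 0 < d := by omega
  let J : Finset (Fin (m + 3)) := Finset.univ.filter
    (fun j : Fin (m + 3) => 2 * d - 2 ≤ (j : ℕ) ∧ (j : ℕ) < m + 2)
  have hJ : ∀ j, j ∈ J ↔ 2 * d - 2 ≤ (j : ℕ) ∧ (j : ℕ) < m + 2 := fun j => by
    simp [J]
  have hJcard : J.card = m + 3 - (2 * d - 1) := by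
    have h1 : J.card = ((Finset.range (m + 3)).filter
        (fun j : ℕ => 2 * d - 2 ≤ j ∧ j < m + 2)).card := by
      rw [← Finset.card_map Fin.valEmbedding]
      congr 1
      ext j
      simp only [J, Finset.mem_map, Finset.mem_filter, Finset.mem_univ, true_and,
        Fin.valEmbedding_apply, Finset.mem_range]
      constructor
      · rintro ⟨a, ha, rfl⟩
        exact ⟨a.2, ha⟩
      · rintro ⟨h1, h2⟩
        exact ⟨⟨j, h1⟩, h2, rfl⟩
    have h2 : (Finset.range (m + 3)).filter (fun j : ℕ => 2 * d - 2 ≤ j ∧ j < m + 2) =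
        Finset.Ico (2 * d - 2) (m + 2) := by
      ext j
      simp only [Finset.mem_filter, Finset.mem_range, Finset.mem_Ico]
      omega
    rw [h1, h2, Nat.card_Ico]
    omega
  -- parameters of the free coordinates
  let sJ : J → ℝ := fun j => s ⟨(j : ℕ) - 2, by have := (j : Fin (m + 3)).2; omega⟩
  let V : Set (J → ℂ) := Set.pi Set.univ fun j => OddLower_V d (sJ j)
  have hVo : IsOpen V := isOpen_set_pi Set.finite_univ fun j _ =>
    OddLower_V_open d hd0 (sJ j) (hs _)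
  have hVn : V.Nonempty := Set.univ_pi_nonempty_iff.2 fun j =>
    OddLower_V_nonempty d hd0 (sJ j) (hs _)
  have key : ∀ w ∈ V, ∃ x ∈ S, ∀ j : J, x j = w j := by
    intro w hw
    let w' : Fin (m + 1) → ℂ := fun l =>
      if h : (⟨(l : ℕ) + 2, by omega⟩ : Fin (m + 3)) ∈ J then w ⟨⟨(l : ℕ) + 2, by omega⟩, h⟩ else 0
    have hmem : ∀ l : Fin (m + 1), 2 * d - 4 ≤ (l : ℕ) → (l : ℕ) < m →
        (⟨(l : ℕ) + 2, by omega⟩ : Fin (m + 3)) ∈ J := by
      intro l h1 h2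
      rw [hJ]
      simp only
      omega
    obtain ⟨x, hx1, hx2, hx3⟩ := OddLower_point d m hd hm s hs hg w' (by
      intro l h1 h2
      have h3 := hmem l h1 h2
      have h4 : w' l = w ⟨⟨(l : ℕ) + 2, by omega⟩, h3⟩ := dif_pos h3
      rw [h4]
      have h5 : w ⟨⟨(l : ℕ) + 2, by omega⟩, h3⟩ ∈ OddLower_V d (sJ ⟨⟨(l : ℕ) + 2, by omega⟩, h3⟩) :=
        hw ⟨⟨(l : ℕ) + 2, by omega⟩, h3⟩ (Set.mem_univ _)
      have h6 : sJ ⟨⟨(l : ℕ) + 2, by omega⟩, h3⟩ = s l := by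
        change s _ = s l
        congr 1
      rw [h6] at h5
      exact h5)
    refine ⟨_, hS x hx1 hx2, ?_⟩
    rintro ⟨⟨j, hj⟩, hjJ⟩
    have h1 := (hJ _).1 hjJ
    simp only at h1
    obtain ⟨l, rfl⟩ : ∃ l, j = l + 2 := ⟨j - 2, by omega⟩
    have h2 := hx3 ⟨l, by omega⟩ (by simp only; omega) (by simp only; omega)
    have h3 : w' ⟨l, by omega⟩ = w ⟨⟨l + 2, hj⟩, hjJ⟩ := dif_pos hjJ
    rw [h3] at h2
    exact h2
  refine ⟨?_, ?_⟩
  · obtain ⟨w, hw⟩ := hVn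
    obtain ⟨x, hx, -⟩ := key w hw
    exact ⟨x, hx⟩
  · have h := le_dimH_of_proj S J V hVo hVn key
    rwa [hJcard] at h

end Pool.Agent.AM
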