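import Pool.Agent.AM.Core4
import Pool.Agent.AM.Dim1
import Pool.Agent.AM.Dim2

/-! Upper bound for the dimension in the odd case. -/

set_option autoImplicit false
open Complex Filter Topology
open scoped ENNReal
namespace Pool.Agent.AM

/-- zeros of the residues with the property `P` in one coordinate -/
def OddUpper_Zs (d : ℕ) (s : ℝ) (P : Fin d → Prop) : Set ℂ :=
  {x | ∃ a : Fin d, P a ∧ U d s (a : ℕ) x = 0}

lemma OddUpper_Zs_countable (d : ℕ) (hd : 0 < d) (s : ℝ) (hs : 0 < s) (P : Fin d → Prop) :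
    (OddUpper_Zs d s P).Countable := by
  have h1 : OddUpper_Zs d s P ⊆ ⋃ a : Fin d, {x | U d s ((a : ℕ) : ℤ) x = 0} := by
    rintro x ⟨a, -, ha⟩
    exact Set.mem_iUnion.2 ⟨a, ha⟩
  exact (Set.countable_iUnion fun a => U_zeros_countable d hd s hs _).mono h1

/-- the coordinates moved by two -/
def OddUpper_ss (m : ℕ) : Fin (m + 1) ↪ Fin (m + 3) :=
  ⟨fun l => Fin.succ (Fin.succ l), fun _ _ h => Fin.succ_injective _ (Fin.succ_injective _ h)⟩

lemma OddUpper_ss_ne0 (m : ℕ) (l : Fin (m + 1)) : OddUpper_ss m l ≠ 0 :=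
  Fin.succ_ne_zero (Fin.succ l)

lemma OddUpper_ss_ne1 (m : ℕ) (l : Fin (m + 1)) : OddUpper_ss m l ≠ 1 := by
  intro h
  have h1 : Fin.succ (Fin.succ l) = Fin.succ (0 : Fin (m + 2)) := h
  exact Fin.succ_ne_zero _ (Fin.succ_injective _ h1)

/-- values of the coordinates -/
def OddUpper_W (m : ℕ) (Y1 Y2 : Set ℂ) (Z : Fin (m + 1) → Set ℂ) : Fin (m + 3) → Set ℂ :=
  Fin.cons (α := fun _ => Set ℂ) Y1 (Fin.cons (α := fun _ => Set ℂ) Y2 Z)

lemma OddUpper_W_countable (m : ℕ) (Y1 Y2 : Set ℂ) (hY1 : Y1.Countable) (hY2 : Y2.Countable)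
    (Z : Fin (m + 1) → Set ℂ) (hZ : ∀ l, (Z l).Countable) (l : Fin (m + 3)) :
    (OddUpper_W m Y1 Y2 Z l).Countable := by
  refine Fin.cases ?_ (fun l => ?_) l
  · exact hY1
  · refine Fin.cases ?_ (fun l => ?_) l
    · exact hY2
    · exact hZ l

lemma OddUpper_forall (m : ℕ) (P : Fin (m + 3) → Prop) (h0 : P 0) (h1 : P 1)
    (h : ∀ l, P (OddUpper_ss m l)) : ∀ l, P l := by
  intro l
  refine Fin.cases h0 (fun l => ?_) l
  refine Fin.cases ?_ (fun l => ?_) l
  · exact h1
  · exact h l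

open Classical in
lemma OddUpper_K (d m : ℕ) (s : Fin (m + 1) → ℝ) (hg : ∀ l, Good d (s l))
    (z : Fin (m + 1) → ℂ) (a b : Fin d) (hab : a ≠ b)
    (h : ∀ c : Fin d, c ≠ a → c ≠ b → 2 ≤ (Finset.univ.filter (fun l : Fin (m + 1) =>
          U d (s l) (c : ℕ) (z l) = 0)).card) :
    ∃ K : Finset (Fin (m + 1)), K.card = 2 * (d - 2) ∧
      ∀ l ∈ K, z l ∈ OddUpper_Zs d (s l) (fun c => c ≠ a ∧ c ≠ b) := by
  set R : Finset (Fin d) := Finset.univ.filter (fun c => c ≠ a ∧ c ≠ b) with hR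
  have hRc : R.card = d - 2 := by
    have h1 : R = Finset.univ \ {a, b} := by
      ext c
      simp [hR]
    rw [h1, Finset.card_sdiff_of_subset (Finset.subset_univ _), Finset.card_univ,
      Fintype.card_fin, Finset.card_pair hab]
  set B : Finset (Fin (m + 1)) := R.biUnion (fun c => Finset.univ.filter (fun l : Fin (m + 1) =>
          U d (s l) (c : ℕ) (z l) = 0)) with hB
  have hBc : 2 * (d - 2) ≤ B.card := by
    rw [hB, Finset.card_biUnion]
    · calc 2 * (d - 2) = ∑ c ∈ R, 2 := by rw [Finset.sum_const, hRc, smul_eq_mul, mul_comm]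
        _ ≤ _ := by
          refine Finset.sum_le_sum fun c hc => ?_
          rw [hR, Finset.mem_filter] at hc
          exact h c hc.2.1 hc.2.2
    · intro c _ c' _ hcc
      refine Finset.disjoint_left.2 ?_
      intro l hl hl'
      rw [Finset.mem_filter] at hl hl'
      exact hcc ((hg l).distinct c c' _ hl.2 hl'.2)
  obtain ⟨K, hK, hKc⟩ := Finset.exists_subset_card_eq hBc
  refine ⟨K, hKc, fun l hl => ?_⟩
  have h1 := hK hl
  rw [hB, Finset.mem_biUnion] at h1
  obtain ⟨c, hc, hl'⟩ := h1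
  rw [hR, Finset.mem_filter] at hc
  rw [Finset.mem_filter] at hl'
  exact ⟨c, hc.2, hl'.2⟩

/-- the function of the odd case -/
noncomputable def OddUpper_F (d m : ℕ) (s : Fin (m + 1) → ℝ) (a b : Fin d) (e : ℂ)
    (z : Fin (m + 3) → ℂ) : ℂ :=
  (∏ l : Fin (m + 1), U d (s l) (a : ℕ) (z (OddUpper_ss m l))) -
    e * ∏ l : Fin (m + 1), U d (s l) (b : ℕ) (z (OddUpper_ss m l))

lemma OddUpper_F_diff (d m : ℕ) (hd : 0 < d) (s : Fin (m + 1) → ℝ) (hs : ∀ l, 0 < s l)
    (a b : Fin d) (e : ℂ) : Differentiable ℂ (OddUpper_F d m s a b e) := by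
  have hU : ∀ (l : Fin (m + 1)) (c : ℤ), Differentiable ℂ (U d (s l) c) := fun l c x =>
    (hasDerivAt_U d hd (s l) (hs l) c x).differentiableAt
  have h1 : ∀ c : ℤ, Differentiable ℂ
      (fun z : Fin (m + 3) → ℂ => ∏ l : Fin (m + 1), U d (s l) c (z (OddUpper_ss m l))) := by
    intro c x
    refine (HasFDerivAt.finsetProd (u := (Finset.univ : Finset (Fin (m + 1))))
      (g := fun (l : Fin (m + 1)) (z : Fin (m + 3) → ℂ) => U d (s l) c (z (OddUpper_ss m l)))
      (g' := fun l => fderiv ℂ (fun z : Fin (m + 3) → ℂ => U d (s l) c (z (OddUpper_ss m l))) x)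
      (fun l _ => ?_)).differentiableAt
    exact (((hU l c).comp (differentiable_apply (OddUpper_ss m l))) x).hasFDerivAt
  exact (h1 a).sub ((h1 b).const_mul e)

lemma OddUpper_ne (d : ℕ) (hd : 0 < d) (s : ℝ) (hs : 0 < s) (b : ℤ) : ∃ p : ℂ, U d s b p ≠ 0 := by
  by_contra hcon
  push Not at hcon
  have h1 : {x : ℂ | U d s b x = 0} = Set.univ := Set.eq_univ_of_forall hcon
  have h2 := U_zeros_countable d hd s hs b
  rw [h1] at h2
  have h3 : ¬ (Set.univ : Set ℂ).Countable := by
    rw [← Cardinal.le_aleph0_iff_set_countable, Cardinal.mk_univ_complex, not_le]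
    exact Cardinal.cantor _ |>.trans_eq (by simp)
  exact h3 h2

open Classical in
lemma OddUpper_slice (d m : ℕ) (hd : 3 ≤ d) (hm : 2 * d - 3 ≤ m + 1) (s : Fin (m + 1) → ℝ)
    (hs : ∀ l, 0 < s l) (hg : ∀ l, Good d (s l)) (a b : Fin d) (hab : a ≠ b) (e : ℂ) (he : e ≠ 0)
    (K : Finset (Fin (m + 1))) (hK : K.card = 2 * (d - 2)) (ζ : Fin (m + 3) → ℂ)
    (hζ : ∀ l ∈ K, ζ (OddUpper_ss m l) ∈ OddUpper_Zs d (s l) (fun c => c ≠ a ∧ c ≠ b)) :
    dimH {x : Fin (m + 3) → ℂ | (∀ l ∈ insert 0 (insert 1 (K.map (OddUpper_ss m))), x l = ζ l) ∧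
      OddUpper_F d m s a b e x = 0} ≤ ((2 * (m + 3 - (2 * d - 1)) : ℕ) : ℝ≥0∞) := by
  have hd0 : 0 < d := by omega
  have h1 : (1 : Fin (m + 3)) ∉ K.map (OddUpper_ss m) := by
    rw [Finset.mem_map]
    rintro ⟨l, -, hl⟩
    exact OddUpper_ss_ne1 m l hl
  have h0 : (0 : Fin (m + 3)) ∉ insert 1 (K.map (OddUpper_ss m)) := by
    rw [Finset.mem_insert, Finset.mem_map]
    rintro (h | ⟨l, -, hl⟩)
    · exact absurd h (by simp)
    · exact OddUpper_ss_ne0 m l hl
  have hcard : (insert 0 (insert 1 (K.map (OddUpper_ss m)))).card = 2 * (d - 2) + 2 := by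
    rw [Finset.card_insert_of_notMem h0, Finset.card_insert_of_notMem h1, Finset.card_map, hK]
  refine (dimH_zero_coord_le (insert 0 (insert 1 (K.map (OddUpper_ss m)))) ζ
    (OddUpper_F d m s a b e) (OddUpper_F_diff d m hd0 s hs a b e) ?_).trans ?_
  · -- a point of the slice where the function does not vanish
    have hlt : K.card < Fintype.card (Fin (m + 1)) := by
      rw [hK, Fintype.card_fin]
      omega
    obtain ⟨l0, hl0⟩ : ∃ l0, l0 ∉ K := by
      by_contra hcon
      push Not at hcon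
      have : K = Finset.univ := Finset.eq_univ_iff_forall.2 hcon
      rw [this, Finset.card_univ] at hlt
      exact lt_irrefl _ hlt
    choose p hp using fun l : Fin (m + 1) => OddUpper_ne d hd0 (s l) (hs l) ((b : ℕ) : ℤ)
    have hza := U_zero_exists d hd0 (s l0) (hs l0) ((a : ℕ) : ℤ)
    set za : ℂ := 1 / (2 * d) - I * (s l0) * ((((a : ℕ) : ℤ) : ℂ) - d / 2) with hzadef
    set y : Fin (m + 1) → ℂ := fun l => if l ∈ K then ζ (OddUpper_ss m l) else
      if l = l0 then za else p l with hy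
    set x : Fin (m + 3) → ℂ := Fin.cons (α := fun _ => ℂ) (ζ 0)
      (Fin.cons (α := fun _ => ℂ) (ζ 1) y) with hx
    have hx0 : x 0 = ζ 0 := rfl
    have hx1 : x 1 = ζ 1 := rfl
    have hxs : ∀ l, x (OddUpper_ss m l) = y l := fun l => rfl
    refine ⟨x, ?_, ?_⟩
    · intro l hl
      rw [Finset.mem_insert, Finset.mem_insert, Finset.mem_map] at hl
      rcases hl with rfl | rfl | ⟨l', hl', rfl⟩
      · exact hx0
      · exact hx1
      · rw [hxs, hy]
        simp only [if_pos hl']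
    · unfold OddUpper_F
      simp only [hxs]
      have hA : ∏ l : Fin (m + 1), U d (s l) (a : ℕ) (y l) = 0 := by
        refine Finset.prod_eq_zero (Finset.mem_univ l0) ?_
        have : y l0 = za := by
          rw [hy]
          simp only [if_neg hl0, if_true]
        rw [this]
        exact hza
      have hB : ∏ l : Fin (m + 1), U d (s l) (b : ℕ) (y l) ≠ 0 := by
        refine Finset.prod_ne_zero_iff.2 fun l _ => ?_
        by_cases hl : l ∈ K
        · have : y l = ζ (OddUpper_ss m l) := by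
            rw [hy]
            simp only [if_pos hl]
          rw [this]
          obtain ⟨c, hc, hcz⟩ := hζ l hl
          intro hb
          exact hc.2 ((hg l).distinct c b _ hcz hb)
        · by_cases hll : l = l0
          · have : y l = za := by
              rw [hy]
              simp only [if_neg hl, if_pos hll]
            rw [this, hll]
            intro hb
            exact hab ((hg l0).distinct a b _ hza hb)
          · have : y l = p l := by
              rw [hy]
              simp only [if_neg hl, if_neg hll]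
            rw [this]
            exact hp l
      rw [hA, zero_sub]
      exact neg_ne_zero.2 (mul_ne_zero he hB)
  · rw [hcard, Fintype.card_fin]
    apply le_of_eq
    congr 2
    omega

open Classical in
theorem odd_upper (d m : ℕ) (hd : 3 ≤ d) (hm : 2 * d - 3 ≤ m + 1) (s : Fin (m + 1) → ℝ)
    (hs : ∀ l, 0 < s l) (hg : ∀ l, Good d (s l)) (S : Set (Fin (m + 3) → ℂ)) (Y1 Y2 : Set ℂ)
    (hY1 : Y1.Countable) (hY2 : Y2.Countable) (E : Fin d → Fin d → ℂ → ℂ → ℂ)
    (hE : ∀ a b y1 y2, E a b y1 y2 ≠ 0)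
    (hS : ∀ z ∈ S,
      (2 * d - 1 ≤ (Finset.univ.filter (fun l : Fin (m + 1) =>
        ∃ a : Fin d, U d (s l) (a : ℕ) (z (Fin.succ (Fin.succ l))) = 0)).card) ∨
      (z 0 ∈ Y1 ∧ z 1 ∈ Y2 ∧ 2 * d - 2 ≤ (Finset.univ.filter (fun l : Fin (m + 1) =>
        ∃ a : Fin d, U d (s l) (a : ℕ) (z (Fin.succ (Fin.succ l))) = 0)).card) ∨
      (∃ a b : Fin d, a ≠ b ∧ z 0 ∈ Y1 ∧ z 1 ∈ Y2 ∧
        (∀ c : Fin d, c ≠ a → c ≠ b → 2 ≤ (Finset.univ.filter (fun l : Fin (m + 1) =>
          U d (s l) (c : ℕ) (z (Fin.succ (Fin.succ l))) = 0)).card) ∧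
        ∏ l : Fin (m + 1), U d (s l) (a : ℕ) (z (Fin.succ (Fin.succ l))) =
          E a b (z 0) (z 1) * ∏ l : Fin (m + 1), U d (s l) (b : ℕ) (z (Fin.succ (Fin.succ l))))) :
    dimH S ≤ ((2 * (m + 3 - (2 * d - 1)) : ℕ) : ℝ≥0∞) := by
  have hd0 : 0 < d := by omega
  -- part A
  set Z : Fin (m + 3) → Set ℂ := OddUpper_W m Y1 Y2 (fun l => OddUpper_Zs d (s l) (fun _ => True))
    with hZ
  set A : Set (Fin (m + 3) → ℂ) :=
    {x | 2 * d - 1 ≤ (Finset.univ.filter (fun l => x l ∈ Z l)).card} with hA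
  have hAdim : dimH A ≤ ((2 * (m + 3 - (2 * d - 1)) : ℕ) : ℝ≥0∞) := by
    have h1 := dimH_many_countable Z (OddUpper_W_countable m Y1 Y2 hY1 hY2 _
      (fun l => OddUpper_Zs_countable d hd0 (s l) (hs l) _)) (2 * d - 1)
      (by rw [Fintype.card_fin]; omega)
    rwa [Fintype.card_fin] at h1
  -- part C
  set ix := {p : (Fin d × Fin d) × Finset (Fin (m + 1)) // p.1.1 ≠ p.1.2 ∧
    p.2.card = 2 * (d - 2)} with hix
  set W : ix → Fin (m + 3) → Set ℂ := fun p => OddUpper_W m Y1 Y2
    (fun l => if l ∈ p.1.2 then OddUpper_Zs d (s l) (fun c => c ≠ p.1.1.1 ∧ c ≠ p.1.1.2) else {0})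
    with hW
  set T : ix → (Fin (m + 3) → ℂ) → Set (Fin (m + 3) → ℂ) := fun p ζ =>
    {x | (∀ l ∈ insert 0 (insert 1 (p.1.2.map (OddUpper_ss m))), x l = ζ l) ∧
      OddUpper_F d m s p.1.1.1 p.1.1.2 (E p.1.1.1 p.1.1.2 (ζ 0) (ζ 1)) x = 0} with hT
  set C : Set (Fin (m + 3) → ℂ) := ⋃ p : ix, ⋃ ζ ∈ Set.pi Set.univ (W p), T p ζ with hC
  have hCdim : dimH C ≤ ((2 * (m + 3 - (2 * d - 1)) : ℕ) : ℝ≥0∞) := by
    rw [hC, dimH_iUnion]
    refine iSup_le fun p => ?_
    have hcount : (Set.pi Set.univ (W p)).Countable := by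
      refine Set.countable_univ_pi fun l => ?_
      refine OddUpper_W_countable m Y1 Y2 hY1 hY2 _ (fun l => ?_) l
      by_cases hl : l ∈ p.1.2
      · rw [if_pos hl]
        exact OddUpper_Zs_countable d hd0 (s l) (hs l) _
      · rw [if_neg hl]
        exact Set.countable_singleton _
    rw [dimH_bUnion hcount]
    refine iSup₂_le fun ζ hζ => ?_
    refine OddUpper_slice d m hd hm s hs hg p.1.1.1 p.1.1.2 p.2.1 _ (hE _ _ _ _) p.1.2 p.2.2 ζ ?_
    intro l hl
    have h1 : ζ (OddUpper_ss m l) ∈ (if l ∈ p.1.2 then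
        OddUpper_Zs d (s l) (fun c => c ≠ p.1.1.1 ∧ c ≠ p.1.1.2) else {0} : Set ℂ) :=
      hζ (OddUpper_ss m l) (Set.mem_univ _)
    rwa [if_pos hl] at h1
  have hsub : S ⊆ A ∪ C := by
    intro z hz
    have hmap : ∀ l : Fin (m + 1), (∃ a : Fin d, U d (s l) (a : ℕ) (z (Fin.succ (Fin.succ l))) = 0) →
        z (OddUpper_ss m l) ∈ Z (OddUpper_ss m l) := by
      rintro l ⟨a, ha⟩
      exact ⟨a, trivial, ha⟩
    rcases hS z hz with h | ⟨h0, -, h⟩ | ⟨a, b, hab, h0, h1, hc, hF⟩
    · left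
      rw [hA, Set.mem_ofPred_eq]
      refine h.trans ?_
      rw [← Finset.card_map (OddUpper_ss m)]
      refine Finset.card_le_card ?_
      intro l hl
      rw [Finset.mem_map] at hl
      obtain ⟨l', hl', rfl⟩ := hl
      rw [Finset.mem_filter] at hl' ⊢
      exact ⟨Finset.mem_univ _, hmap l' hl'.2⟩
    · left
      rw [hA, Set.mem_ofPred_eq]
      set J := Finset.univ.filter (fun l : Fin (m + 1) =>
        ∃ a : Fin d, U d (s l) (a : ℕ) (z (Fin.succ (Fin.succ l))) = 0) with hJ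
      have hn : (0 : Fin (m + 3)) ∉ J.map (OddUpper_ss m) := by
        rw [Finset.mem_map]
        rintro ⟨l, -, hl⟩
        exact OddUpper_ss_ne0 m l hl
      have hle : 2 * d - 1 ≤ (insert 0 (J.map (OddUpper_ss m))).card := by
        rw [Finset.card_insert_of_notMem hn, Finset.card_map]
        omega
      refine hle.trans (Finset.card_le_card ?_)
      intro l hl
      rw [Finset.mem_insert, Finset.mem_map] at hl
      rw [Finset.mem_filter]
      refine ⟨Finset.mem_univ _, ?_⟩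
      rcases hl with rfl | ⟨l', hl', rfl⟩
      · exact h0
      · rw [hJ, Finset.mem_filter] at hl'
        exact hmap l' hl'.2
    · right
      obtain ⟨K, hKc, hK⟩ := OddUpper_K d m s hg (fun l => z (Fin.succ (Fin.succ l))) a b hab hc
      rw [hC, Set.mem_iUnion]
      refine ⟨⟨((a, b), K), hab, hKc⟩, ?_⟩
      rw [Set.mem_iUnion₂]
      refine ⟨fun l => if l ∈ insert 0 (insert 1 (K.map (OddUpper_ss m))) then z l else 0, ?_, ?_⟩
      · rw [Set.mem_univ_pi]
        refine OddUpper_forall m (fun l => (fun l => if l ∈ insert 0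
          (insert 1 (K.map (OddUpper_ss m))) then z l else 0) l ∈ W ⟨((a, b), K), hab, hKc⟩ l)
          ?_ ?_ ?_
        · have : (0 : Fin (m + 3)) ∈ insert 0 (insert 1 (K.map (OddUpper_ss m))) :=
            Finset.mem_insert_self _ _
          simp only [if_pos this]
          exact h0
        · have : (1 : Fin (m + 3)) ∈ insert 0 (insert 1 (K.map (OddUpper_ss m))) :=
            Finset.mem_insert_of_mem (Finset.mem_insert_self _ _)
          simp only [if_pos this]
          exact h1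
        · intro l
          change (if OddUpper_ss m l ∈ insert 0 (insert 1 (K.map (OddUpper_ss m))) then
            z (OddUpper_ss m l) else 0) ∈ (if l ∈ K then
              OddUpper_Zs d (s l) (fun c => c ≠ a ∧ c ≠ b) else {0} : Set ℂ)
          by_cases hl : l ∈ K
          · have h2 : OddUpper_ss m l ∈ insert 0 (insert 1 (K.map (OddUpper_ss m))) :=
              Finset.mem_insert_of_mem (Finset.mem_insert_of_mem
                (Finset.mem_map_of_mem _ hl))
            rw [if_pos h2, if_pos hl]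
            exact hK l hl
          · have h2 : OddUpper_ss m l ∉ insert 0 (insert 1 (K.map (OddUpper_ss m))) := by
              rw [Finset.mem_insert, Finset.mem_insert, Finset.mem_map]
              rintro (h | h | ⟨l', hl', h⟩)
              · exact OddUpper_ss_ne0 m l h
              · exact OddUpper_ss_ne1 m l h
              · exact hl ((OddUpper_ss m).injective h ▸ hl')
            rw [if_neg h2, if_neg hl]
            rfl
      · refine ⟨fun l hl => ?_, ?_⟩
        · have hl' : l ∈ insert 0 (insert 1 (K.map (OddUpper_ss m))) := hl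
          simp only [if_pos hl']
        · have e0 : (0 : Fin (m + 3)) ∈ insert 0 (insert 1 (K.map (OddUpper_ss m))) :=
            Finset.mem_insert_self _ _
          have e1 : (1 : Fin (m + 3)) ∈ insert 0 (insert 1 (K.map (OddUpper_ss m))) :=
            Finset.mem_insert_of_mem (Finset.mem_insert_self _ _)
          simp only [if_pos e0, if_pos e1]
          unfold OddUpper_F
          rw [sub_eq_zero]
          exact hF
  refine (dimH_mono hsub).trans ?_
  rw [dimH_union]
  exact max_le hAdim hCdim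

end Pool.Agent.AM
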