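import Pool.Agent.AM.Core4

/-! Surjectivity of the ratio of two of the functions U. -/

set_option autoImplicit false
open Complex Filter Topology
namespace Pool.Agent.AM

theorem ratio_surj (d : ℕ) (hd : 2 ≤ d) (s : ℝ) (hs : 0 < s) (hg : Good d s) (a b : Fin d)
    (hab : a ≠ b) (w : ℂ) : ∃ x : ℂ, U d s (b : ℕ) x ≠ 0 ∧ U d s (a : ℕ) x = w * U d s (b : ℕ) x := by
  by_contra hcon
  push Not at hcon
  have hd0 : 0 < d := by omega
  set F : ℂ → ℂ := fun x => U d s (a : ℕ) x - w * U d s (b : ℕ) x with hF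
  have hF0 : ∀ x, F x ≠ 0 := by
    intro x hx
    by_cases hb : U d s (b : ℕ) x = 0
    · have ha : U d s (a : ℕ) x = 0 := by
        have : U d s (a : ℕ) x - w * U d s (b : ℕ) x = 0 := hx
        rw [hb, mul_zero, sub_zero] at this
        exact this
      exact hab (hg.distinct a b x ha hb)
    · exact hcon x hb (sub_eq_zero.mp hx)
  have hdU : ∀ c : ℤ, Differentiable ℂ (U d s c) := fun c x =>
    (hasDerivAt_U d hd0 s hs c x).differentiableAt
  have hdF : Differentiable ℂ F := (hdU _).sub ((hdU _).const_mul w)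
  set h : ℂ → ℂ := fun x => U d s (a : ℕ) x / F x with hh
  have hdh : Differentiable ℂ h := (hdU _).div hdF hF0
  have hp1 : Function.Periodic h 1 := by
    intro x
    simp only [hh, hF, U_add_one]
  have hp2 : ∀ (x : ℂ) (k : ℤ), h (x + k * (I * d * s)) = h x := by
    intro x k
    simp only [hh, hF, U_shift d hd0]
    rw [mul_left_comm w, ← mul_sub]
    exact mul_div_mul_left _ _ (Complex.exp_ne_zero _)
  obtain ⟨C, hC⟩ := (isCompact_closedBall (0 : ℂ) (1 + d * s)).exists_bound_of_continuousOn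
    hdh.continuous.continuousOn
  have hbd : ∀ x, ‖h x‖ ≤ C := by
    intro x
    obtain ⟨k, hk⟩ := exists_shift d hd0 s hs x
    set x1 : ℂ := x + k * (I * d * s) with hx1
    set x2 : ℂ := x1 + ((-⌊x1.re⌋ : ℤ) : ℂ) * 1 with hx2
    have e1 : h x2 = h x := by
      rw [hx2, hp1.int_mul, hx1, hp2]
    rw [← e1]
    apply hC
    rw [mem_closedBall_zero_iff]
    have hre : x2.re = Int.fract x1.re := by
      rw [hx2, ← Int.self_sub_floor, mul_one, Complex.add_re, Complex.intCast_re]
      push_cast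
      ring
    have him : x2.im = x1.im := by
      rw [hx2]; simp
    have h1 : |x2.re| ≤ 1 := by
      rw [hre, abs_of_nonneg (Int.fract_nonneg _)]
      exact (Int.fract_lt_one _).le
    have h2 : |x2.im| ≤ d * s := by
      rw [him]
      rw [abs_div, abs_of_pos hs, div_le_iff₀ hs] at hk
      exact hk
    exact (Complex.norm_le_abs_re_add_abs_im x2).trans (add_le_add h1 h2)
  have hconst : ∀ x, h x = h 0 := by
    intro x
    apply hdh.apply_eq_apply_of_bounded
    rw [isBounded_iff_forall_norm_le]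
    refine ⟨C, ?_⟩
    rintro _ ⟨y, rfl⟩
    exact hbd y
  have hU : ∀ x, U d s (a : ℕ) x = h 0 * F x := by
    intro x
    rw [← hconst x]
    simp only [hh]
    rw [div_mul_cancel₀ _ (hF0 x)]
  have za := U_zero_exists d hd0 s hs ((a : ℕ) : ℤ)
  have zb := U_zero_exists d hd0 s hs ((b : ℕ) : ℤ)
  set xa := (1 / (2 * d) - I * s * ((((a : ℕ) : ℤ) : ℂ) - d / 2) : ℂ) with hxa
  set xb := (1 / (2 * d) - I * s * ((((b : ℕ) : ℤ) : ℂ) - d / 2) : ℂ) with hxb
  have hbxa : U d s (b : ℕ) xa ≠ 0 := fun h0 => hab (hg.distinct a b xa za h0)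
  have haxb : U d s (a : ℕ) xb ≠ 0 := fun h0 => hab (hg.distinct a b xb h0 zb)
  have h1 := hU xa
  rw [za] at h1
  have h2 : h 0 = 0 := by
    rcases mul_eq_zero.mp h1.symm with h3 | h3
    · exact h3
    · exact absurd h3 (hF0 xa)
  apply haxb
  rw [hU xb, h2, zero_mul]

end Pool.Agent.AM
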